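import Mathlib
import Pool.Agent.H220.TS.Stm

set_option autoImplicit false

/-!
# The strip case is excluded by exponential growth (`S_strip`)
-/

namespace Pool.Agent.H795.TS

open Set Filter Topology Metric Asymptotics
open Pool.Agent.H220.TS

theorem s_strip (hg : S_grow) : S_strip := by
  intro φ h a b hφ hh hab hΩ M A hcon
  obtain ⟨h1, h2, h3⟩ := hh
  have hL : 0 < b - a := sub_pos.2 hab
  obtain ⟨c0, hc0⟩ : ∃ c0 : ℝ, c0 = Real.pi / (b - a) := ⟨_, rfl⟩
  have hc0pos : 0 < c0 := by rw [hc0]; exact div_pos Real.pi_pos hL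
  have hc0L : c0 * (b - a) = Real.pi := by
    rw [hc0]
    exact div_mul_cancel₀ _ hL.ne'
  obtain ⟨m0, hm0⟩ : ∃ m0 : ℝ, m0 = (a + b) / 2 := ⟨_, rfl⟩
  obtain ⟨E, hE⟩ : ∃ E : ℂ → ℂ, E = fun z => -(Complex.I * (c0 : ℂ) * (h z - (m0 : ℂ))) :=
    ⟨_, rfl⟩
  have hstrip : ∀ z ∈ D, a < (h z).re ∧ (h z).re < b := by
    intro z hz
    have h4 : h z ∈ Omega h := by
      refine ⟨0, le_rfl, ?_⟩
      rw [Complex.ofReal_zero, zero_mul, add_zero]
      exact ⟨z, hz, rfl⟩
    rw [hΩ] at h4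
    exact h4
  have hEre : ∀ z, (E z).re = c0 * (h z).im := by
    intro z
    rw [hE]
    simp
  have hEim : ∀ z, (E z).im = -(c0 * ((h z).re - m0)) := by
    intro z
    rw [hE]
    simp
  have hFpos : ∀ z ∈ D, 0 < (Complex.exp (E z)).re := by
    intro z hz
    rw [Complex.exp_re]
    apply mul_pos (Real.exp_pos _)
    apply Real.cos_pos_of_mem_Ioo
    rw [hEim]
    obtain ⟨h4, h5⟩ := hstrip z hz
    have e1 : c0 * ((h z).re - m0) < c0 * ((b - a) / 2) :=
      mul_lt_mul_of_pos_left (by rw [hm0]; linarith) hc0pos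
    have e2 : c0 * (-((b - a) / 2)) < c0 * ((h z).re - m0) :=
      mul_lt_mul_of_pos_left (by rw [hm0]; linarith) hc0pos
    constructor
    · linarith
    · linarith
  have hFd : DifferentiableOn ℂ (fun z => Complex.exp (E z)) D := by
    apply DifferentiableOn.cexp
    rw [hE]
    exact ((h1.sub_const _).const_mul _).neg
  have hgr := hg (fun z => Complex.exp (E z)) hFd hFpos
  have h0D : (0 : ℂ) ∈ D := mem_ball_self one_pos
  have key : ∀ n : ℕ, 1 ≤ n → Real.exp (c0 * n) ≤ (A * (n : ℝ) ^ M + 1) ^ 2 := by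
    intro n hn
    have hz : φ n 0 ∈ D := hφ.maps n (Nat.cast_nonneg n) h0D
    have h4 : ‖Complex.exp (E (φ n 0))‖ ≤
        ‖Complex.exp (E 0)‖ * ((1 + ‖φ n 0‖) / (1 - ‖φ n 0‖)) := hgr _ hz
    have h5 : h (φ n 0) = h 0 + ((n : ℝ) : ℂ) * Complex.I := h3 n (Nat.cast_nonneg n) 0 h0D
    have h6 : (h 0 + ((n : ℝ) : ℂ) * Complex.I).im = (h 0).im + n := by simp
    rw [Complex.norm_exp, Complex.norm_exp, hEre, hEre, h5, h6, mul_add, Real.exp_add] at h4
    have h7 := le_of_mul_le_mul_left h4 (Real.exp_pos _)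
    exact h7.trans (hcon n hn)
  have hlo : (fun x : ℝ => (A * x ^ M + 1) ^ 2) =o[atTop] fun x : ℝ => Real.exp (c0 * x) := by
    have l1 : ∀ j : ℕ, (fun x : ℝ => x ^ j) =o[atTop] fun x : ℝ => Real.exp (c0 * x) :=
      fun j => isLittleO_pow_exp_pos_mul_atTop j hc0pos
    have l2 := (((l1 (2 * M)).const_mul_left (A ^ 2)).add ((l1 M).const_mul_left (2 * A))).add
      (l1 0)
    refine l2.congr_left fun x => ?_
    rw [pow_zero, pow_mul']
    ring
  have hb := (hlo.bound (show (0 : ℝ) < 1 / 2 by norm_num))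
  have hb' := (tendsto_natCast_atTop_atTop (R := ℝ)).eventually hb
  obtain ⟨n, hn1, hn2⟩ := (hb'.and (eventually_ge_atTop 1)).exists
  have h8 := key n hn2
  rw [Real.norm_eq_abs, Real.norm_eq_abs, abs_of_nonneg (sq_nonneg _),
    abs_of_pos (Real.exp_pos _)] at hn1
  have h9 := Real.exp_pos (c0 * n)
  linarith

end Pool.Agent.H795.TS
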